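import Mathlib
import Pool.Agent.N820.SU.All

/-!
# Strong uniform boundedness over function fields of characteristic zero for all rational maps
which are determined by their multipliers up to finitely many choices
-/

namespace Pool.Agent.Results.MP_9b502d_nt.FiniteMultiplierFibre

open Polynomial

universe u v

/-- The self-map of the projective line `K ∪ {∞}`, where `none` is `∞`, given by the rational
function `p / q`, where `p` and `q` are coprime and `d` is the larger of their degrees: it sends
`x` to `p(x) / q(x)`, or to `∞` when `q(x) = 0`, and it sends `∞` to the quotient of the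
coefficients of degree `d`, or to `∞` when that of `q` is zero. -/
noncomputable def mapP1 {K : Type*} [Field K] (p q : K[X]) (d : ℕ) : Option K → Option K
  | some x => by classical exact if q.eval x = 0 then none else some (p.eval x / q.eval x)
  | none => by classical exact if q.coeff d = 0 then none else some (p.coeff d / q.coeff d)

/-- The Möbius transformation `x ↦ (a x + b) / (c x + e)` of the projective line `K ∪ {∞}`. -/
noncomputable def moebius {K : Type*} [Field K] (a b c e : K) : Option K → Option K
  | some x => by classical exact if c * x + e = 0 then none else some ((a * x + b) / (c * x + e))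
  | none => by classical exact if c = 0 then none else some (a / c)

/-- `l` is a multiplier of the `n`-th iterate of the map `f = p / q` of degree `d`: for some Möbius
transformation `φ` and some coprime polynomials `P, Q` with larger degree `d ^ n` and `P(0) = 0`
one has `(P / Q) ∘ φ = φ ∘ f ^ n` on the projective line, and `l = P'(0) / Q(0)`. So `φ⁻¹(0)` is a
fixed point of the `n`-th iterate and `l` is the derivative of the iterate at this fixed point, in
the coordinate `φ`. -/
def IsMultiplier {K : Type*} [Field K] (p q : K[X]) (d n : ℕ) (l : K) : Prop :=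
  ∃ a b c e : K, a * e - b * c ≠ 0 ∧ ∃ P Q : K[X], IsCoprime P Q ∧
    max P.natDegree Q.natDegree = d ^ n ∧ P.coeff 0 = 0 ∧ l = P.coeff 1 / Q.coeff 0 ∧
    ∀ z, mapP1 P Q (d ^ n) (moebius a b c e z) = moebius a b c e ((mapP1 p q d)^[n] z)

/-- The maps `p / q` and `u / w` of degree `d` have the same set of multipliers for the `n`-th
iterate, for all `n` with `1 ≤ n ≤ B`. -/
def SameMultipliers {K : Type*} [Field K] (p q u w : K[X]) (d B : ℕ) : Prop :=
  ∀ n, 1 ≤ n → n ≤ B → ∀ l, IsMultiplier u w d n l ↔ IsMultiplier p q d n l

/-- The maps `p / q` and `u / w` of degree `d` are conjugate by a Möbius transformation. -/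
def AreConjugate {K : Type*} [Field K] (p q u w : K[X]) (d : ℕ) : Prop :=
  ∃ a b c e : K, a * e - b * c ≠ 0 ∧
    ∀ z, mapP1 u w d (moebius a b c e z) = moebius a b c e (mapP1 p q d z)

/-- The multiplier fibre of the map `p / q` of degree `d` is finite at level `B`: the rational maps
of degree `d` over `K` which have the same multipliers as `p / q` for all iterates up to the
`B`-th form at most `B` conjugacy classes (that is, among any `B + 1` of them there are two which
are conjugate). -/
def FiniteFibre {K : Type*} [Field K] (p q : K[X]) (d B : ℕ) : Prop :=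
  ∀ u w : Fin (B + 1) → K[X], (∀ i, (IsCoprime (u i) (w i) ∧
    max (u i).natDegree (w i).natDegree = d) ∧ SameMultipliers p q (u i) (w i) d B) →
    ∃ i j, i ≠ j ∧ AreConjugate (u i) (w i) (u j) (w j) d

/-- With `φ(x) = (a x + b) / (c x + e)`, the map `p / q` of degree `d` satisfies
`φ ∘ (p / q) = (u / w) ∘ φ` for some `a, b, c, e` in `F` with `a e ≠ b c` and some polynomials
`u, w` of degree at most `d`, not both zero, with coefficients algebraic over `k`; the equation is
written with denominators cleared. -/
def ConjAlg (k : Type*) {F : Type*} [Field k] [Field F] [Algebra k F] (p q : F[X])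
    (d : ℕ) : Prop :=
  ∃ a b c e : F, a * e - b * c ≠ 0 ∧ ∃ u w : F[X], (u ≠ 0 ∨ w ≠ 0) ∧
    u.natDegree ≤ d ∧ w.natDegree ≤ d ∧ (∀ n, IsAlgebraic k (u.coeff n)) ∧
    (∀ n, IsAlgebraic k (w.coeff n)) ∧
    (C a * p + C b * q) * ∑ i ∈ Finset.range (d + 1),
      C (w.coeff i) * (C a * X + C b) ^ i * (C c * X + C e) ^ (d - i) =
    (C c * p + C e * q) * ∑ i ∈ Finset.range (d + 1),
      C (u.coeff i) * (C a * X + C b) ^ i * (C c * X + C e) ^ (d - i)

/-- The map `p / q` of degree `d` over `K` is isotrivial: over an algebraic closure of `K` it is
conjugate to a map with coefficients algebraic over `k`. -/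
def Isotrivial (k : Type*) {K : Type*} [Field k] [Field K] [Algebra k K] (p q : K[X])
    (d : ℕ) : Prop :=
  ConjAlg k (p.map (algebraMap K (AlgebraicClosure K))) (q.map (algebraMap K (AlgebraicClosure K)))
    d

lemma e_map {K : Type*} [Field K] (p q : K[X]) (d : ℕ) :
    Pool.Agent.N820.SU.mapP1 p q d = mapP1 p q d := by
  funext z
  cases z <;> rfl

lemma e_mob {K : Type*} [Field K] (a b c e : K) :
    Pool.Agent.N820.SU.mob a b c e = moebius a b c e := by
  funext z
  cases z <;> rfl

lemma e_mult {K : Type*} [Field K] (p q : K[X]) (d n : ℕ) (l : K) :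
    Pool.Agent.N820.SU.IsMult p q d n l ↔ IsMultiplier p q d n l := by
  unfold Pool.Agent.N820.SU.IsMult IsMultiplier
  simp only [e_map, e_mob]

lemma e_few {K : Type*} [Field K] (p q : K[X]) (d B : ℕ) (h : FiniteFibre p q d B) :
    Pool.Agent.N820.SU.Few p q d B := by
  intro u w huw
  obtain ⟨i, j, hij, hc⟩ := h u w fun i => ⟨(huw i).1, fun n h1 h2 l => by
    rw [← e_mult, ← e_mult]
    exact (huw i).2 n h1 h2 l⟩
  refine ⟨i, j, hij, ?_⟩
  unfold Pool.Agent.N820.SU.ConjP1
  simp only [e_map, e_mob]
  exact hc

/-- **Strong uniform boundedness in characteristic zero.** There is a function `N` such that the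
following holds for all `n`, `D`, `B` and all `d ≥ 2`, every field `k` of characteristic zero,
every `t` transcendental over `k` and every field `L` of degree at most `n` over `k(t)`. Let
`p / q` be a rational map of degree `d` over `L` which is not isotrivial and whose multiplier fibre
over an algebraic closure of `L` is finite at level `B`. Then `p / q` has at most `N(n, D, d, B)`
preperiodic points of degree at most `D` over `L` in the projective line over an algebraic closure
of `L`. (By the rigidity theorems of McMullen and, for the maps with the multipliers of a flexible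
Lattès map, of Ji and Xie and of Huguin, for every `d` there is a level `B` which works for all maps
of degree `d` except the flexible Lattès maps; this is not used here.) -/
theorem result : ∃ N : ℕ → ℕ → ℕ → ℕ → ℕ, ∀ (k : Type v) (L : Type u) [Field k] [CharZero k]
    [Field L] [Algebra k L] (t : L), Transcendental k t →
    FiniteDimensional (IntermediateField.adjoin k {t}) L →
    ∀ (n D d B : ℕ), Module.finrank (IntermediateField.adjoin k {t}) L ≤ n → 2 ≤ d →
    ∀ p q : L[X], IsCoprime p q → max p.natDegree q.natDegree = d → ¬ Isotrivial k p q d →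
    FiniteFibre (p.map (algebraMap L (AlgebraicClosure L)))
      (q.map (algebraMap L (AlgebraicClosure L))) d B →
    {z : Option (AlgebraicClosure L) | (Set.range fun m : ℕ =>
        (mapP1 (p.map (algebraMap L (AlgebraicClosure L)))
          (q.map (algebraMap L (AlgebraicClosure L))) d)^[m] z).Finite ∧
      ∀ x, z = some x → (minpoly L x).natDegree ≤ D}.encard ≤ ((N n D d B : ℕ) : ℕ∞) := by
  obtain ⟨N, hN⟩ := Pool.Agent.N820.SU.All.subp.{u, v}
  refine ⟨N, ?_⟩
  intro k L _ _ _ _ t ht hfd n D d B hn hd p q hco hmax hiso hfin
  have h := hN k L t ht hfd n D d B hn hd p q ⟨hco, hmax⟩ hiso (e_few _ _ _ _ hfin)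
  simp only [e_map] at h
  exact h

end Pool.Agent.Results.MP_9b502d_nt.FiniteMultiplierFibre
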