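import Pool.Agent.N236.UR.Main7

/-!
# Uniform boundedness over function fields of curves and varieties over number fields

For all `D`, `b` and `d ≥ 2` there are `N ≥ 1` and `C` such that for all `n`, every field `K` which is
finite of degree at most `D` over `ℚ (t₁, …, tₙ)` (for `n = 1`: all function fields of curves over
number fields `k`, where `D` is the product of `[k : ℚ]` and the degree of a map to the line) and every
self-map `φ` of `ℙ¹` of degree `d` which is a composition of Moebius maps over `K`, power maps
`z ↦ z ^ l` (`l > D b + 1` prime) and Dickson polynomials `D_l (z, α)` (`l > 2 D b + 1` prime, `α ∈ K`),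
every preperiodic point `P ∈ ℙ¹ (K̄)` of `φ` with coordinates in an extension of `K` of degree at most `b`
satisfies `φ ^ N (P) = P`, and there are at most `C` such points.

Idea. `ℚ (t₁, …, tₙ)` embeds in `ℚ_p` for every prime `p` (transcendence degree), so that every finite
extension `F` of `K` has an absolute value above `p` with finite residue field of degree at most
`[F : ℚ (t₁, …, tₙ)]`. These places are not trivial on the constants. The argument for number fields (places
where all stages are bijections of `ℙ¹`, monotone absolute values of cross-ratios, invariant ultrametric on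
the cycles, see `MP_90787a_nt.ExceptionalMaps`) applies to them with the same constants.

Parts by helpers 7, 56, 87, 106, 160, 186, 222, 278, 281, 318, 322, 360, 491, 492, 562, 578, 591, 618,
622, 663, 722, 727, 803, 823, 878, 966, 985 and (primes) 514.
-/

set_option autoImplicit false

open Polynomial

namespace Pool.Agent.Results.MP_9b502d_nt.FinitelyGeneratedFields

open Pool.Agent.N236.UR
open scoped LinearAlgebra.Projectivization

theorem result : ∀ D b d : ℕ, 2 ≤ d → ∃ N C : ℕ, 1 ≤ N ∧
    ∀ (n : ℕ) (K : Type) [Field K] [Algebra (FractionRing (MvPolynomial (Fin n) ℚ)) K]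
      [FiniteDimensional (FractionRing (MvPolynomial (Fin n) ℚ)) K],
      Module.finrank (FractionRing (MvPolynomial (Fin n) ℚ)) K ≤ D →
      ∀ φ : ℙ (AlgebraicClosure K) (AlgebraicClosure K × AlgebraicClosure K) →
          ℙ (AlgebraicClosure K) (AlgebraicClosure K × AlgebraicClosure K),
        ExcP K (AlgebraicClosure K) (D * b) φ d →
        (∀ P, RatLe K b P → (∃ m n : ℕ, m < n ∧ φ^[m] P = φ^[n] P) → φ^[N] P = P) ∧
        {P | RatLe K b P ∧ ∃ m n : ℕ, m < n ∧ φ^[m] P = φ^[n] P}.Finite ∧
        {P | RatLe K b P ∧ ∃ m n : ℕ, m < n ∧ φ^[m] P = φ^[n] P}.ncard ≤ C :=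
  fun D b d hd => main_fg D b d hd

end Pool.Agent.Results.MP_9b502d_nt.FinitelyGeneratedFields
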