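import Pool.Agent.R414.FF.C

/-!
# Polynomials over `F_q[t]` with preperiodic points of bounded degree

`F` is a finite field with `q` elements, `t` the variable of `F[X]`, and `Omega F` an algebraic
closure of `F(t)`. `Family F d n` is the set of the `q ^ (d n)` monic polynomials of degree `d` with
coefficients in `F[t]` of degree less than `n`, and `preper D f` is the set of the preperiodic points
of `f` of degree at most `D` over `F(t)` (all points with finite orbit, in all extensions of `F(t)`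
of degree at most `D`, besides `∞`).

Let `D ≥ 1` and `k ≥ 1` be given and let `d` be large. The number of the `f` in `Family F d n` with
at least `k` preperiodic points of degree at most `D` is of the order `q ^ ((d - k) n)`, that is,
their proportion is of the order `q ^ (-k n)`; for almost all of them the number of these points is
exactly `k`; and the average of the `k`-th power of this number over the family is `O(q ^ (-n))`.
-/

set_option autoImplicit false

open Polynomial Filter Topology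

namespace Pool.Agent.Results.MP_9b502d_nt.PolynomialsBoundedDegree

/-- an algebraic closure of `F(t)` -/
abbrev Omega (F : Type) [Field F] : Type := AlgebraicClosure (RatFunc F)

/-- the monic polynomials of degree `d` over `F[t]` with coefficients of degree less than `n` -/
def Family (F : Type) [Field F] (d n : ℕ) : Set F[X][X] :=
  {f | f.Monic ∧ f.natDegree = d ∧ ∀ j, (f.coeff j).degree < n}

/-- the points of degree at most `D` over `F(t)` with a finite orbit under `f` -/
def preper {F : Type} [Field F] (D : ℕ) (f : F[X][X]) : Set (Omega F) :=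
  {x | (∃ m n : ℕ, m < n ∧ (fun y => aeval y f)^[m] x = (fun y => aeval y f)^[n] x) ∧
    (minpoly (RatFunc F) x).natDegree ≤ D}

open Pool.Agent.R414.FF

variable {F : Type} [Field F]

theorem family_eq (d n : ℕ) : Family F d n = Mon F d n := rfl

theorem preper_eq (D : ℕ) (f : F[X][X]) : preper D f = Pre D f := rfl

theorem preper_sub {D d n : ℕ} (h2 : 2 ≤ d) {f : F[X][X]} (hf : f ∈ Family F d n) :
    preper D f ⊆ Pts F D (n * D) := fun _ hx => pre_pts hf h2 hx (tdeg_minpoly_le hf h2 hx)

theorem preper_finite [Fintype F] {D d n : ℕ} (h2 : 2 ≤ d) {f : F[X][X]} (hf : f ∈ Family F d n) :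
    (preper D f).Finite := (Pts_card (F := F) D (n * D)).1.subset (preper_sub h2 hf)

theorem preper_card [Fintype F] {D d n : ℕ} (h2 : 2 ≤ d) {f : F[X][X]} (hf : f ∈ Family F d n) :
    (preper D f).ncard ≤ Fintype.card F ^ ((D + 1) * (n * D + 1)) * D :=
  (Set.ncard_le_ncard (preper_sub h2 hf) (Pts_card (F := F) D (n * D)).1).trans
    (Pts_card (F := F) D (n * D)).2

theorem cls_one (d n : ℕ) : Cls F d n 1 0 = Family F d n := by
  ext f
  simp [Cls, family_eq]

theorem tdeg_one : tdeg (1 : F[X][X]) = 0 := by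
  apply Nat.le_zero.1
  rw [tdeg_le_iff]
  intro j
  rw [coeff_one]
  split_ifs <;> simp

theorem family_finite [Fintype F] (d n : ℕ) : (Family F d n).Finite := by
  rw [← cls_one]
  exact (cls_card_le monic_one d n 0).1

theorem family_card [Fintype F] (d : ℕ) :
    ∀ᶠ n in atTop, (Family F d n).ncard = Fintype.card F ^ (d * n) := by
  obtain ⟨n₁, h⟩ := cls_card (F := F) (M := 1) monic_one (d := d) (by simp) (r := 0) (by simp)
  filter_upwards [eventually_ge_atTop n₁] with n hn
  have := h n hn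
  rw [cls_one] at this
  rw [this, natDegree_one, tdeg_one, Nat.sub_zero, Nat.sub_zero]

/-- the polynomials with at least `k` preperiodic points of degree at most `D` -/
def AtLeast (F : Type) [Field F] (D d n k : ℕ) : Set F[X][X] :=
  {f | f ∈ Family F d n ∧ k ≤ (preper D f).ncard}

theorem atLeast_sub [Fintype F] {D d n k : ℕ} (h2 : 2 ≤ d) :
    AtLeast F D d n k ⊆ Many F D k k d n := by
  rintro f ⟨hf, hk⟩
  obtain ⟨Z, hZ, hZk⟩ := Set.exists_subset_card_eq hk
  have hfin := (preper_finite h2 hf).subset hZ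
  refine ⟨hf, hfin.toFinset, by rw [Set.Finite.coe_toFinset]; exact hZ, ?_, ?_⟩
  · rw [← Set.ncard_eq_toFinset_card Z hfin, hZk]
  · rw [← hZk, Set.ncard_eq_toFinset_card Z hfin]
    apply card_le_MZ
    intro z hz
    rw [Set.Finite.mem_toFinset] at hz
    exact (preper_sub h2 hf (hZ hz)).1

theorem upper [Fintype F] (D k : ℕ) (hk : 1 ≤ k) : ∃ d₀ : ℕ, ∀ d, d₀ ≤ d → ∃ C : ℝ, 0 < C ∧
    ∀ n, ((AtLeast F D d n k).ncard : ℝ) ≤ C * (Fintype.card F : ℝ) ^ ((d - k) * n) := by
  obtain ⟨d₀, h⟩ := many_card (F := F) D k k hk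
  refine ⟨max d₀ 2, fun d hd => ?_⟩
  obtain ⟨C, hC, h⟩ := h d ((le_max_left _ _).trans hd)
  refine ⟨C + 1, by linarith, fun n => ?_⟩
  have h1 := Set.ncard_le_ncard (atLeast_sub (F := F) (D := D) (n := n) (k := k)
    ((le_max_right _ _).trans hd)) (h n).1
  have h2 : ((AtLeast F D d n k).ncard : ℝ) ≤ ((Many F D k k d n).ncard : ℝ) := by
    exact_mod_cast h1
  refine h2.trans ((h n).2.trans ?_)
  exact mul_le_mul_of_nonneg_right (by linarith) (by positivity)

/-- the product of the `z - t ^ (i + 1)`, `i < k` -/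
noncomputable def Mk (F : Type) [Field F] (k : ℕ) : F[X][X] :=
  ∏ i ∈ Finset.range k, (X - C (X ^ (i + 1) : F[X]))

theorem Mk_monic (k : ℕ) : (Mk F k).Monic := monic_prod_of_monic _ _ fun _ _ => monic_X_sub_C _

theorem Mk_natDegree (k : ℕ) : (Mk F k).natDegree = k := by
  unfold Mk
  rw [natDegree_prod_of_monic _ _ fun _ _ => monic_X_sub_C _,
    Finset.sum_congr rfl fun i _ => natDegree_X_sub_C _]
  simp

theorem Mk_root {k i : ℕ} (hi : i < k) : (Mk F k).eval (X ^ (i + 1) : F[X]) = 0 := by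
  unfold Mk
  rw [eval_prod]
  apply Finset.prod_eq_zero (Finset.mem_range.2 hi)
  simp

theorem lower [Fintype F] {D d k : ℕ} (hD : 1 ≤ D) (h2 : 2 ≤ d) (hkd : k ≤ d) : ∃ c : ℝ, 0 < c ∧
    ∀ᶠ n : ℕ in atTop, c * (Fintype.card F : ℝ) ^ ((d - k) * n) ≤
      ((AtLeast F D d n k).ncard : ℝ) := by
  set q := Fintype.card F with hq
  have hq0 : (0 : ℝ) < q := by
    have : 0 < q := Fintype.card_pos
    exact_mod_cast this
  set r : F[X][X] := X %ₘ Mk F k with hr
  have hdeg : r.degree < (Mk F k).degree := degree_modByMonic_lt _ (Mk_monic k)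
  obtain ⟨n₁, h⟩ := cls_card (F := F) (M := Mk F k) (Mk_monic k) (d := d)
    (by rw [Mk_natDegree]; exact hkd) hdeg
  set τ := tdeg (Mk F k) with hτ
  refine ⟨((q : ℝ) ^ ((d - k) * τ))⁻¹, by positivity, ?_⟩
  filter_upwards [eventually_ge_atTop n₁, eventually_ge_atTop τ] with n hn hnτ
  have h1 := h n hn
  rw [Mk_natDegree] at h1
  have hsub : Cls F d n (Mk F k) r ⊆ AtLeast F D d n k := by
    rintro f ⟨hf, hdvd⟩
    refine ⟨hf, ?_⟩
    have hX : Mk F k ∣ f - X := by
      have h3 : Mk F k ∣ X - r := by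
        have := modByMonic_add_div (X : F[X][X]) (Mk F k)
        refine ⟨X /ₘ Mk F k, ?_⟩
        rw [hr, sub_eq_iff_eq_add, add_comm]
        exact this.symm
      have := dvd_sub hdvd h3
      rwa [sub_sub_sub_cancel_right] at this
    have hfix : ∀ i < k, aeval (algebraMap F[X] (Omega F) (X ^ (i + 1))) f =
        algebraMap F[X] (Omega F) (X ^ (i + 1)) := by
      intro i hi
      rw [aeval_algebraMap_apply]
      congr 1
      obtain ⟨g, hg⟩ := hX
      have h4 : f = X + Mk F k * g := by rw [← hg]; ring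
      rw [h4]
      simp only [coe_aeval_eq_eval, eval_add, eval_X, eval_mul, Mk_root hi, zero_mul, add_zero]
    have hinj : Set.InjOn (fun i : ℕ => algebraMap F[X] (Omega F) (X ^ (i + 1)))
        (Finset.range k : Set ℕ) := by
      intro i _ j _ hij
      have h5 := alg_inj hij
      have h6 := congrArg natDegree h5
      simp only [natDegree_X_pow] at h6
      omega
    have hmem : (fun i : ℕ => algebraMap F[X] (Omega F) (X ^ (i + 1))) '' (Finset.range k : Set ℕ)
        ⊆ preper D f := by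
      rintro _ ⟨i, hi, rfl⟩
      have hi' : i < k := by simpa using hi
      refine ⟨⟨0, 1, one_pos, ?_⟩, ?_⟩
      · simp only [Function.iterate_zero, id_eq, Function.iterate_one]
        exact (hfix i hi').symm
      · show (minpoly (RatFunc F) (algebraMap F[X] (Omega F) (X ^ (i + 1)))).natDegree ≤ D
        rw [IsScalarTower.algebraMap_apply F[X] (RatFunc F) (Omega F), minpoly.eq_X_sub_C,
          natDegree_X_sub_C]
        exact hD
    calc k = ((fun i : ℕ => algebraMap F[X] (Omega F) (X ^ (i + 1))) ''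
          (Finset.range k : Set ℕ)).ncard := by
          rw [hinj.ncard_image, Set.ncard_coe_finset, Finset.card_range]
      _ ≤ _ := Set.ncard_le_ncard hmem (preper_finite h2 hf)
  have hfin : (AtLeast F D d n k).Finite := (family_finite d n).subset fun f hf => hf.1
  have h3 := Set.ncard_le_ncard hsub hfin
  rw [h1] at h3
  have h4 : ((q ^ ((d - k) * (n - τ)) : ℕ) : ℝ) ≤ ((AtLeast F D d n k).ncard : ℝ) := by
    exact_mod_cast h3
  refine le_trans (le_of_eq ?_) h4
  push_cast
  rw [inv_mul_eq_iff_eq_mul₀ (by positivity), ← pow_add, ← Nat.mul_add]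
  congr 2
  omega

open Classical in
/-- the moments of the number of preperiodic points -/
theorem moment [Fintype F] {D d k K : ℕ} (hk : 1 ≤ k) (h2 : 2 ≤ d)
    (hK : K = k * ((D + 1) * D) + 1) (hKd : K ≤ d) {C₁ C₂ : ℝ} (hC₁ : 0 < C₁) (hC₂ : 0 < C₂)
    (h1 : ∀ n, ((AtLeast F D d n 1).ncard : ℝ) ≤ C₁ * (Fintype.card F : ℝ) ^ ((d - 1) * n))
    (h3 : ∀ n, ((AtLeast F D d n K).ncard : ℝ) ≤ C₂ * (Fintype.card F : ℝ) ^ ((d - K) * n)) (n : ℕ) :
    ∑ᶠ (f : F[X][X]) (_ : f ∈ Family F d n), ((preper D f).ncard : ℝ) ^ k ≤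
      ((K : ℝ) ^ k * C₁ + ((Fintype.card F : ℝ) ^ (D + 1) * D) ^ k * C₂) *
        (Fintype.card F : ℝ) ^ ((d - 1) * n) := by
  set q := Fintype.card F with hq
  have hq0 : (0 : ℝ) < q := by
    have : 0 < q := Fintype.card_pos
    exact_mod_cast this
  have hfin := family_finite (F := F) d n
  rw [finsum_mem_eq_finite_toFinset_sum _ hfin]
  set S := hfin.toFinset with hS
  set B : ℝ := ((q : ℝ) ^ ((D + 1) * (n * D + 1)) * D) ^ k with hB
  have hB0 : 0 ≤ B := by positivity
  have hterm : ∀ f ∈ S, ((preper D f).ncard : ℝ) ^ k ≤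
      (K : ℝ) ^ k * (if 1 ≤ (preper D f).ncard then 1 else 0) +
        B * (if K ≤ (preper D f).ncard then 1 else 0) := by
    intro f hf
    have hf' : f ∈ Family F d n := (Set.Finite.mem_toFinset _).1 hf
    by_cases hKf : K ≤ (preper D f).ncard
    · rw [if_pos hKf, mul_one]
      have h4 : ((preper D f).ncard : ℝ) ≤ (q : ℝ) ^ ((D + 1) * (n * D + 1)) * D := by
        exact_mod_cast preper_card (F := F) (D := D) h2 hf'
      have h5 : ((preper D f).ncard : ℝ) ^ k ≤ B := pow_le_pow_left₀ (by positivity) h4 k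
      have h6 : (0 : ℝ) ≤ (K : ℝ) ^ k * (if 1 ≤ (preper D f).ncard then 1 else 0) := by positivity
      linarith
    · rw [if_neg hKf, mul_zero, add_zero]
      by_cases h7 : 1 ≤ (preper D f).ncard
      · rw [if_pos h7, mul_one]
        have h8 : ((preper D f).ncard : ℝ) ≤ K := by
          have : (preper D f).ncard ≤ K := by omega
          exact_mod_cast this
        exact pow_le_pow_left₀ (by positivity) h8 k
      · have h9 : (preper D f).ncard = 0 := by omega
        rw [if_neg h7, h9, Nat.cast_zero, zero_pow (by omega), mul_zero]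
  have hcount : ∀ j : ℕ, (∑ f ∈ S, (if j ≤ (preper D f).ncard then (1 : ℝ) else 0)) =
      ((AtLeast F D d n j).ncard : ℝ) := by
    intro j
    rw [Finset.sum_boole]
    congr 1
    rw [← Set.ncard_coe_finset]
    congr 1
    ext f
    simp [hS, AtLeast]
  calc ∑ f ∈ S, ((preper D f).ncard : ℝ) ^ k ≤ ∑ f ∈ S,
        ((K : ℝ) ^ k * (if 1 ≤ (preper D f).ncard then 1 else 0) +
          B * (if K ≤ (preper D f).ncard then 1 else 0)) := Finset.sum_le_sum hterm
    _ = (K : ℝ) ^ k * ((AtLeast F D d n 1).ncard : ℝ) + B * ((AtLeast F D d n K).ncard : ℝ) := by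
        rw [Finset.sum_add_distrib, ← Finset.mul_sum, ← Finset.mul_sum, hcount, hcount]
    _ ≤ (K : ℝ) ^ k * (C₁ * (q : ℝ) ^ ((d - 1) * n)) + B * (C₂ * (q : ℝ) ^ ((d - K) * n)) :=
        add_le_add (mul_le_mul_of_nonneg_left (h1 n) (by positivity))
          (mul_le_mul_of_nonneg_left (h3 n) hB0)
    _ = _ := by
        have h10 : B = ((q : ℝ) ^ (D + 1) * D) ^ k * (q : ℝ) ^ (k * ((D + 1) * D) * n) := by
          have e : ((q : ℝ) ^ ((D + 1) * (n * D + 1))) ^ k =
              ((q : ℝ) ^ (D + 1)) ^ k * (q : ℝ) ^ (k * ((D + 1) * D) * n) := by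
            rw [← pow_mul, ← pow_mul, ← pow_add]
            congr 1
            ring
          rw [hB, mul_pow, mul_pow, e]
          ring
        have h11 : (q : ℝ) ^ (k * ((D + 1) * D) * n) * (q : ℝ) ^ ((d - K) * n) =
            (q : ℝ) ^ ((d - 1) * n) := by
          rw [← pow_add, ← add_mul]
          congr 2
          omega
        rw [h10, ← h11]
        ring_nf

/-- Let `D ≥ 1` and `k ≥ 1`, and let `d` be large enough (in terms of `F`, `D`, `k`). All the sets
`Family F d n` are finite, with `q ^ (d n)` elements for large `n`, and all `f` in `Family F d n`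
have finitely many preperiodic points of degree at most `D`. The number of the `f` in `Family F d n`
with at least `k` of these points is at most `C q ^ ((d - k) n)` for all `n` and at least
`c q ^ ((d - k) n)` for large `n`, `c > 0`; the proportion of those with exactly `k` of them among
these `f` tends to `1`; and the sum over `Family F d n` of the `k`-th powers of the numbers of these
points is at most `C q ^ ((d - 1) n)`. -/
theorem result (F : Type) [Field F] [Fintype F] (D k : ℕ) (hD : 1 ≤ D) (hk : 1 ≤ k) :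
    ∃ d₀ : ℕ, ∀ d, d₀ ≤ d →
      (∀ n, (Family F d n).Finite ∧ ∀ f ∈ Family F d n, (preper D f).Finite) ∧
      (∀ᶠ n in atTop, (Family F d n).ncard = Fintype.card F ^ (d * n)) ∧
      (∃ C : ℝ, ∀ n, ({f | f ∈ Family F d n ∧ k ≤ (preper D f).ncard}.ncard : ℝ) ≤
        C * (Fintype.card F : ℝ) ^ ((d - k) * n)) ∧
      (∃ c : ℝ, 0 < c ∧ ∀ᶠ n : ℕ in atTop, c * (Fintype.card F : ℝ) ^ ((d - k) * n) ≤
        ({f | f ∈ Family F d n ∧ k ≤ (preper D f).ncard}.ncard : ℝ)) ∧
      Tendsto (fun n : ℕ => ({f | f ∈ Family F d n ∧ (preper D f).ncard = k}.ncard : ℝ) /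
        ({f | f ∈ Family F d n ∧ k ≤ (preper D f).ncard}.ncard : ℝ)) atTop (𝓝 1) ∧
      ∃ C : ℝ, ∀ n, ∑ᶠ (f : F[X][X]) (_ : f ∈ Family F d n), ((preper D f).ncard : ℝ) ^ k ≤
        C * (Fintype.card F : ℝ) ^ ((d - 1) * n) := by
  set K := k * ((D + 1) * D) + 1 with hK
  obtain ⟨d₁, h₁⟩ := upper (F := F) D 1 le_rfl
  obtain ⟨d₂, h₂⟩ := upper (F := F) D k hk
  obtain ⟨d₃, h₃⟩ := upper (F := F) D (k + 1) (by omega)
  obtain ⟨d₄, h₄⟩ := upper (F := F) D K (by omega)
  refine ⟨d₁ + d₂ + d₃ + d₄ + K + k + 2, fun d hd => ?_⟩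
  obtain ⟨C₁, hC₁, h₁⟩ := h₁ d (by omega)
  obtain ⟨C₂, hC₂, h₂⟩ := h₂ d (by omega)
  obtain ⟨C₃, hC₃, h₃⟩ := h₃ d (by omega)
  obtain ⟨C₄, hC₄, h₄⟩ := h₄ d (by omega)
  have h2 : 2 ≤ d := by omega
  set q := Fintype.card F with hq
  have hq1 : (1 : ℝ) < q := by
    have : 1 < q := Fintype.one_lt_card
    exact_mod_cast this
  have hq0 : (0 : ℝ) < q := by linarith
  obtain ⟨c, hc, hlow⟩ := lower (F := F) (D := D) (d := d) (k := k) hD h2 (by omega)
  refine ⟨fun n => ⟨family_finite d n, fun f hf => preper_finite h2 hf⟩, family_card d,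
    ⟨C₂, h₂⟩, ⟨c, hc, hlow⟩, ?_, ⟨_, moment hk h2 hK (by omega) hC₁ hC₄ h₁ h₄⟩⟩
  -- the proportion of those with exactly `k` points
  have hsplit : ∀ n, ((AtLeast F D d n k).ncard : ℝ) =
      ({f | f ∈ Family F d n ∧ (preper D f).ncard = k}.ncard : ℝ) +
        ((AtLeast F D d n (k + 1)).ncard : ℝ) := by
    intro n
    have hf1 : {f | f ∈ Family F d n ∧ (preper D f).ncard = k}.Finite :=
      (family_finite d n).subset fun f hf => hf.1
    have hf2 : (AtLeast F D d n (k + 1)).Finite := (family_finite d n).subset fun f hf => hf.1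
    have hdis : Disjoint {f | f ∈ Family F d n ∧ (preper D f).ncard = k}
        (AtLeast F D d n (k + 1)) := by
      rw [Set.disjoint_left]
      rintro f ⟨-, h5⟩ ⟨-, h6⟩
      omega
    rw [← Nat.cast_add, ← Set.ncard_union_eq hdis hf1 hf2]
    congr 2
    ext f
    constructor
    · rintro ⟨h5, h6⟩
      rcases Nat.eq_or_lt_of_le h6 with h7 | h7
      · exact Or.inl ⟨h5, h7.symm⟩
      · exact Or.inr ⟨h5, h7⟩
    · rintro (⟨h5, h6⟩ | ⟨h5, h6⟩)
      · exact ⟨h5, h6.ge⟩
      · exact ⟨h5, by omega⟩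
  have hlim : Tendsto (fun n : ℕ => 1 - (C₃ / c) * ((q : ℝ)⁻¹) ^ n) atTop (𝓝 1) := by
    have h5 : Tendsto (fun n : ℕ => ((q : ℝ)⁻¹) ^ n) atTop (𝓝 0) :=
      tendsto_pow_atTop_nhds_zero_of_lt_one (by positivity) (inv_lt_one_of_one_lt₀ hq1)
    simpa using (h5.const_mul (C₃ / c)).const_sub 1
  refine tendsto_of_tendsto_of_tendsto_of_le_of_le' hlim tendsto_const_nhds ?_ ?_
  · filter_upwards [hlow] with n hn
    have hpos : (0 : ℝ) < (AtLeast F D d n k).ncard := lt_of_lt_of_le (by positivity) hn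
    show _ ≤ _ / ((AtLeast F D d n k).ncard : ℝ)
    rw [le_div_iff₀ hpos]
    have h5 := hsplit n
    have h6 := h₃ n
    have h7 : C₃ * (q : ℝ) ^ ((d - (k + 1)) * n) ≤
        C₃ / c * ((q : ℝ)⁻¹) ^ n * ((AtLeast F D d n k).ncard : ℝ) := by
      refine le_trans (le_of_eq ?_) (mul_le_mul_of_nonneg_left hn (by positivity))
      have h8 : (q : ℝ) ^ ((d - k) * n) = (q : ℝ) ^ ((d - (k + 1)) * n) * (q : ℝ) ^ n := by
        rw [← pow_add]
        congr 1
        have : d - k = d - (k + 1) + 1 := by omega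
        rw [this]
        ring
      rw [h8, inv_pow]
      field_simp
    linarith
  · refine Eventually.of_forall fun n => ?_
    refine div_le_one_of_le₀ ?_ (by positivity)
    have h5 := hsplit n
    have h6 : (0 : ℝ) ≤ ((AtLeast F D d n (k + 1)).ncard : ℝ) := by positivity
    show _ ≤ ((AtLeast F D d n k).ncard : ℝ)
    linarith

end Pool.Agent.Results.MP_9b502d_nt.PolynomialsBoundedDegree
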