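import Pool.Agent.N889.WU.Stm2
import Pool.Agent.N374.WU.Mon
import Pool.Agent.N362.WU.GEN
import Pool.Agent.N344.WU.TRREG
import Pool.Agent.N316.WU.Pl
import Pool.Agent.N901.WU.GLU
import Pool.Agent.N505.WU.Glob
import Pool.Agent.N80.WU.DEG
import Pool.Agent.N942.WU.KP
import Pool.Agent.N724.WU.DER
import Pool.Agent.N570.WU.KER
import Pool.Agent.N698.WU.SIZE
import Pool.Agent.N833.WU.LOC
import Pool.Agent.N78.WU.Loc2
import Pool.Agent.N596.WU.ALGX
import Pool.Agent.N866.WU.POLE
import Pool.Agent.N457.WU.MEAS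
import Pool.Agent.N368.WU.Red
import Pool.Agent.N454.WU.P1
import Pool.Agent.N370.WU.P2
import Pool.Agent.N822.WU.MAIN
import Pool.Agent.N774.WU.BC
import Pool.Agent.N850.WU.Fin

/-!
# Wild polynomials over function fields of small gonality in characteristic `p`
-/

set_option autoImplicit false

open Polynomial IntermediateField

namespace Pool.Agent.Results.MP_9b502d_nt.WildPolynomials

universe u

/-- Let `k` be any field of characteristic `p > 0`, let `h` be a polynomial over `k` whose degree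
`e` is not divisible by `p`, and let `s ≥ 1`. Let `L` be an extension field of `k` which has
finite degree at most `e - 2` over `k(t)` for some `t` in `L`. Then for every `c` in `L`
transcendental over `k` the polynomial `f(z) = h(z) ^ (p ^ s) + c` has at most one periodic point
in `L`, it maps every point of `L` with finite forward orbit to a periodic point, and there are at
most `e` points of `L` with finite forward orbit. -/
theorem result (p s : ℕ) [Fact p.Prime] (k L : Type u) [Field k] [CharP k p] [Field L]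
    [Algebra k L] (t : L) (h : k[X]) (c : L) (hs : 1 ≤ s) (hp : ¬ p ∣ h.natDegree)
    (hfin : 0 < Module.finrank k⟮t⟯ L) (hdeg : Module.finrank k⟮t⟯ L + 2 ≤ h.natDegree)
    (hc : Transcendental k c) (f : L → L) (hf : ∀ z, f z = aeval z h ^ p ^ s + c) :
    (Function.periodicPts f).encard ≤ 1 ∧
    (∀ z : L, (Set.range fun m : ℕ => f^[m] z).Finite → f z ∈ Function.periodicPts f) ∧
    {z : L | (Set.range fun m : ℕ => f^[m] z).Finite}.encard ≤ (h.natDegree : ℕ∞) := by
  have hTR := Pool.Agent.N344.WU.t_TRREG Pool.Agent.N374.WU.t_MON Pool.Agent.N362.WU.t_GEN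
  have hPL := Pool.Agent.N316.WU.t_PL
  have hGLU := Pool.Agent.N901.WU.GLU.t_GLU hPL hTR
  have hKP := Pool.Agent.N942.WU.t_KP hGLU Pool.Agent.N505.WU.t_GLOB Pool.Agent.N80.WU.DEG.t_DEG
  have hP1 := Pool.Agent.N454.WU.t_P1 hKP Pool.Agent.N698.WU.SIZE.t_SIZE Pool.Agent.N833.WU.t_LOC
    Pool.Agent.N724.WU.t_DER Pool.Agent.N570.WU.t_KER Pool.Agent.N368.WU.t_RED
    Pool.Agent.N457.WU.t_MEAS
  have hP2 := Pool.Agent.N370.WU.t_P2 hKP Pool.Agent.N698.WU.SIZE.t_SIZE Pool.Agent.N78.WU.t_LOC2
    Pool.Agent.N596.WU.t_ALGX (Pool.Agent.N866.WU.POLE.t_POLE hPL) Pool.Agent.N724.WU.t_DER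
    Pool.Agent.N570.WU.t_KER Pool.Agent.N368.WU.t_RED Pool.Agent.N457.WU.t_MEAS
  have hMAIN := Pool.Agent.N822.WU.t_MAIN hP1 hP2
  have hFIN := Pool.Agent.N850.WU.t_FIN hMAIN Pool.Agent.N774.WU.t_BC
  have hff : f = Pool.Agent.N889.WU.fm p s h c := funext hf
  subst hff
  exact hFIN p s k L t hfin h c hs hp hdeg hc

end Pool.Agent.Results.MP_9b502d_nt.WildPolynomials
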